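import Pool.Agent.PLG.Stmts

/-!
Squad PLG, row CVX: convex progressions.
-/

set_option autoImplicit false

namespace Pool.Agent.PLG.H82

open Module

/-- the integer combinations of `v` -/
noncomputable def ps (d : ℕ) (v : Fin d → ℂ) : (Fin d → ℤ) →+ ℂ where
  toFun x := ∑ i, (x i : ℂ) * v i
  map_zero' := by simp
  map_add' x y := by
    rw [← Finset.sum_add_distrib]
    refine Finset.sum_congr rfl fun i _ => ?_
    rw [Pi.add_apply, Int.cast_add, add_mul]

theorem ps_apply (d : ℕ) (v : Fin d → ℂ) (x : Fin d → ℤ) :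
    ps d v x = ∑ i, (x i : ℂ) * v i := rfl

theorem exists_f {d : ℕ} {E : Type} [NormedAddCommGroup E] [NormedSpace ℝ E] (u : Fin d → E)
    {v : Fin d → ℂ} (hv : LinearIndependent ℚ v) :
    ∃ f : ℂ →+ E, ∀ x : Fin d → ℤ, f (ps d v x) = ∑ i, (x i : ℝ) • u i := by
  obtain ⟨g, hg⟩ := (Fintype.linearCombination ℚ v).exists_leftInverse_of_injective
    (LinearMap.ker_eq_bot.2
      (linearIndependent_iff_injective_fintypeLinearCombination.1 hv))
  refine ⟨AddMonoidHom.mk' (fun z => ∑ i, ((g z i : ℚ) : ℝ) • u i) ?_, ?_⟩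
  · intro z w
    rw [← Finset.sum_add_distrib]
    refine Finset.sum_congr rfl fun i _ => ?_
    rw [map_add, Pi.add_apply, Rat.cast_add, add_smul]
  · intro x
    have h1 : ps d v x = Fintype.linearCombination ℚ v (fun i => (x i : ℚ)) := by
      rw [ps_apply, Fintype.linearCombination_apply]
      refine Finset.sum_congr rfl fun i _ => ?_
      rw [Rat.smul_def]
      push_cast
      rfl
    have h2 : g (ps d v x) = fun i => (x i : ℚ) := by
      rw [h1]
      exact congrArg (fun k => k (fun i => (x i : ℚ))) hg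
    change ∑ i, ((g (ps d v x) i : ℚ) : ℝ) • u i = _
    rw [h2]
    refine Finset.sum_congr rfl fun i _ => ?_
    push_cast
    rfl

theorem fin_ball {d : ℕ} {E : Type} [NormedAddCommGroup E] [NormedSpace ℝ E] {u : Fin d → E}
    (hu : LinearIndependent ℝ u) (r : ℝ) :
    {x : Fin d → ℤ | ‖∑ i, (x i : ℝ) • u i‖ ≤ r}.Finite := by
  obtain ⟨K, -, hK⟩ := (Fintype.linearCombination ℝ u).exists_antilipschitzWith
    (LinearMap.ker_eq_bot.2
      (linearIndependent_iff_injective_fintypeLinearCombination.1 hu))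
  refine (Set.finite_Icc (fun _ : Fin d => -⌈(K : ℝ) * r⌉) (fun _ => ⌈(K : ℝ) * r⌉)).subset ?_
  intro x hx
  have hx' : ‖∑ i, (x i : ℝ) • u i‖ ≤ r := hx
  have h1 := hK.le_mul_dist (fun i => (x i : ℝ)) 0
  rw [map_zero, dist_zero_right, dist_zero_right, Fintype.linearCombination_apply] at h1
  have h2 : ‖fun i => (x i : ℝ)‖ ≤ K * r :=
    h1.trans (mul_le_mul_of_nonneg_left hx' (NNReal.coe_nonneg K))
  have h3 : ∀ i, |(x i : ℝ)| ≤ K * r := fun i =>
    (norm_le_pi_norm (fun i => (x i : ℝ)) i).trans h2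
  rw [Set.mem_Icc]
  constructor
  · intro i
    have h4 := (abs_le.1 (h3 i)).1
    have h5 : (-(⌈(K : ℝ) * r⌉ : ℝ)) ≤ (x i : ℝ) := by
      have := Int.le_ceil ((K : ℝ) * r)
      linarith
    exact_mod_cast h5
  · intro i
    have h4 := (abs_le.1 (h3 i)).2
    have h5 : (x i : ℝ) ≤ (⌈(K : ℝ) * r⌉ : ℝ) := h4.trans (Int.le_ceil _)
    exact_mod_cast h5

/-- row CVX -/
theorem cvx (hMA2 : Ma2Stmt) : CvxStmt := by
  intro d K
  obtain ⟨ε, c, A, hε, hc, h⟩ := hMA2 d K
  refine ⟨ε, c, A, hε, hc, ?_⟩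
  intro E _ _ u v P p₀ hu hv hP hPx hK hnd
  obtain ⟨f, hf⟩ := exists_f u hv
  have hfin := fin_ball hu
  have hsub : ∀ r : ℝ, {z : ℂ | z ∈ (ps d v).range ∧ ‖f z‖ ≤ r} ⊆
      ps d v '' {x : Fin d → ℤ | ‖∑ i, (x i : ℝ) • u i‖ ≤ r} := by
    rintro r z ⟨⟨x, rfl⟩, hz⟩
    rw [hf] at hz
    exact ⟨x, hz, rfl⟩
  have hD : Dsc f (ps d v).range := fun r => ((hfin r).image _).subset (hsub r)
  have hsp : sp (ps d v).range ≤ Submodule.span ℚ (Set.range v) := by
    refine Submodule.span_le.2 ?_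
    rintro z ⟨x, rfl⟩
    rw [ps_apply]
    refine Submodule.sum_mem _ fun i _ => ?_
    have h1 : (x i : ℂ) * v i = (x i : ℚ) • v i := by
      rw [Rat.smul_def]
      push_cast
      rfl
    rw [h1]
    exact Submodule.smul_mem _ _ (Submodule.subset_span ⟨i, rfl⟩)
  have hfd : FiniteDimensional ℚ (Submodule.span ℚ (Set.range v)) :=
    FiniteDimensional.span_of_finite ℚ (Set.finite_range v)
  refine h E f (ps d v).range P p₀ hD (Submodule.finiteDimensional_of_le hsp) ?_ hP ?_ ?_ hnd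
  · refine (Submodule.finrank_mono hsp).trans ?_
    have h1 := finrank_range_le_card (R := ℚ) v
    rw [Fintype.card_fin] at h1
    exact h1
  · intro p hp
    obtain ⟨x, hx1, hx2⟩ := hPx p hp
    rw [mem_bl hD]
    have h1 : p - p₀ = ps d v x := by
      rw [hx2, ps_apply, add_sub_cancel_left]
    rw [h1, hf]
    exact ⟨⟨x, rfl⟩, hx1⟩
  · refine le_trans ?_ hK
    rw [Nat.cast_le]
    have h1 : cnt f (ps d v).range 1 = (bl f (ps d v).range 1 : Set ℂ).ncard := by
      rw [Set.ncard_coe_finset]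
      rfl
    rw [h1]
    have h2 : (bl f (ps d v).range 1 : Set ℂ) ⊆
        ps d v '' {x : Fin d → ℤ | ‖∑ i, (x i : ℝ) • u i‖ ≤ 1} := by
      intro z hz
      rw [Finset.mem_coe, mem_bl hD] at hz
      exact hsub 1 hz
    exact (Set.ncard_le_ncard h2 ((hfin 1).image _)).trans (Set.ncard_image_le (hfin 1))

end Pool.Agent.PLG.H82
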